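import Mathlib
import Pool.Agent.Lib_MP_8bb00a_gt.Bound
import Pool.Agent.Lib_MP_8bb00a_gt.Stab
import Pool.Agent.Lib_MP_8bb00a_gt.Apply

/-!
# The energy density is not monotone along the `ℂ*`-flow

On the genus two curve `y² = x⁵ + 1`, with `p` the point at infinity and `ω = dx/y`, whose only zero
is a double zero at `p`, take `E = O(p) ⊕ O ⊕ O(-p)` and `φ = ω (N + N²)` with `N` the standard
nilpotent Jordan block. The bundle is stable, harmonic metrics on `(E, s φ)` exist for all large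
`s`, and every harmonic metric `h` of `(E, s φ)` satisfies `0 < tr (φ_s φ_s*)(p) ≤ C / s²` where
`φ_s = s φ`. Hence the energy density at `p` is not monotone in `s`.
-/

open MP_8bb00a_gt

namespace Pool.Agent.Results.MP_8bb00a_gt.NotMonotone

/-- There are a closed Riemann surface of genus at least two, a stable `SL(3, ℂ)`-Higgs bundle
`(E, φ)` on it and a point `p` such that harmonic metrics exist on `(E, s φ)` for all large `s`, the
energy density at `p` of every harmonic metric on `(E, s φ)` is positive and at most `C / s²`, and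
the energy density at `p` is strictly smaller for some harmonic metric on `(E, s₂ φ)` than for some
harmonic metric on `(E, s₁ φ)`, where `0 < s₁ < s₂`. -/
theorem result :
    ∃ (X : Type) (_ : TopologicalSpace X) (_ : CompactSpace X) (_ : T2Space X)
      (_ : ConnectedSpace X) (A : HolAtlas X) (E : HiggsBundle A 3) (i : A.I) (p : X) (C S : ℝ),
      A.GenusGeTwo ∧ E.Stable ∧ p ∈ A.dom i ∧ 0 < S ∧
      (∀ s : ℝ, S ≤ s → ∃ h : A.I → X → Matrix (Fin 3) (Fin 3) ℂ, (E.scale s).IsHarmonic h) ∧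
      (∀ s : ℝ, 0 < s → ∀ h : A.I → X → Matrix (Fin 3) (Fin 3) ℂ, (E.scale s).IsHarmonic h →
        0 < (E.scale s).energy h i p ∧ (E.scale s).energy h i p ≤ C / s ^ 2) ∧
      ∃ (s₁ s₂ : ℝ) (h₁ h₂ : A.I → X → Matrix (Fin 3) (Fin 3) ℂ), 0 < s₁ ∧ s₁ < s₂ ∧
        (E.scale s₁).IsHarmonic h₁ ∧ (E.scale s₂).IsHarmonic h₂ ∧
        (E.scale s₂).energy h₂ i p < (E.scale s₁).energy h₁ i p := by
  obtain ⟨S, hS, hex⟩ := exists_harmonic
  have hb : ∀ s : ℝ, 0 < s → ∀ h : CA.I → Pool.Agent.Lib8bb.Crv → Matrix (Fin 3) (Fin 3) ℂ,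
      (EC.scale s).IsHarmonic h → 0 < (EC.scale s).energy h none pinf ∧
        (EC.scale s).energy h none pinf ≤ (289 / 4) / s ^ 2 :=
    fun _ hs _ hh => energy_bound hs hh
  refine ⟨Pool.Agent.Lib8bb.Crv, inferInstance, inferInstance, inferInstance, inferInstance, CA, EC,
    none, pinf, 289 / 4, S, genus_ge_two, EC_stable, pinf_mem_dom, hS, hex, hb, ?_⟩
  obtain ⟨h₁, hh₁⟩ := hex S le_rfl
  have he := (hb S hS h₁ hh₁).1
  set e : ℝ := (EC.scale S).energy h₁ none pinf with hedef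
  set s₂ : ℝ := S + 1 + 289 / 4 / e with hs₂
  have hpos : 0 < 289 / 4 / e := by positivity
  have hS2 : S < s₂ := by rw [hs₂]; linarith
  obtain ⟨h₂, hh₂⟩ := hex s₂ hS2.le
  refine ⟨S, s₂, h₁, h₂, hS, hS2, hh₁, hh₂, ?_⟩
  refine (hb s₂ (hS.trans hS2) h₂ hh₂).2.trans_lt ?_
  have h1 : 1 < s₂ := by rw [hs₂]; linarith
  have h2 : 289 / 4 / e < s₂ := by rw [hs₂]; linarith
  have h3 : 289 / 4 < s₂ * e := by rwa [div_lt_iff₀ he] at h2
  rw [div_lt_iff₀ (by positivity)]
  nlinarith [mul_pos (sub_pos.mpr h1) (mul_pos (hS.trans hS2) he)]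

end Pool.Agent.Results.MP_8bb00a_gt.NotMonotone
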